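import Pool.Agent.Y744.ANC.Ker
import Pool.Agent.Y744.PCR.Core

/-! The rigidity theorem for anchored windows. -/

open MeasureTheory Filter Topology Real
open scoped ContDiff

namespace Pool.Agent.Y744.ANC

open Pool.Agent.Y744

variable {κ : ℝ} {K : ℝ → ℝ} {A' : ℝ → ℝ} {C0 : ℝ}

/-- the discrepancy is orthogonal to the differences of test functions -/
lemma annih2 (hK : TK κ K) (hA' : Monotone A') (hb : ∀ y, |A' y| ≤ C0 * (1 + y ^ 2)) (h : ℝ)
    (hm : ∫ y, A' y * (ct K (y + h) - ct K (y - h)) = ∫ y, AG y * (ct K (y + h) - ct K (y - h))) :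
    ∫ y, dE A' y * (ct K (y + h) - ct K (y - h)) = 0 := by
  have h0 := annih hK hA' hb h hm
  have hEm := dE_meas hA'
  have hEb := dE_bound hb
  have i1 : ∀ h, Integrable fun y => dE A' y * ct K (y + h) := fun h => test_int hK hEm hEb h
  have e1 : ∀ h, ∫ y, dE A' (y + h) * ct K y = ∫ y, dE A' y * ct K (y - h) := by
    intro h
    have := integral_add_right_eq_self (μ := volume) (fun y => dE A' y * ct K (y - h)) h
    rw [← this]
    refine integral_congr_ae (Eventually.of_forall fun y => ?_)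
    show dE A' (y + h) * ct K y = dE A' (y + h) * ct K (y + h - h)
    rw [add_sub_cancel_right]
  have i2 : ∀ h, Integrable fun y => dE A' (y + h) * ct K y := by
    intro h
    have := (i1 (-h)).comp_add_right h
    refine this.congr (Eventually.of_forall fun y => ?_)
    show dE A' (y + h) * ct K (y + h + -h) = dE A' (y + h) * ct K y
    rw [add_neg_cancel_right]
  have h1 : ∫ y, (dE A' (y + h) - dE A' (y - h)) * ct K y =
      (∫ y, dE A' (y + h) * ct K y) - ∫ y, dE A' (y + -h) * ct K y := by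
    rw [← integral_sub (i2 h) (i2 (-h))]
    refine integral_congr_ae (Eventually.of_forall fun y => ?_)
    show (dE A' (y + h) - dE A' (y - h)) * ct K y = dE A' (y + h) * ct K y -
      dE A' (y + -h) * ct K y
    rw [← sub_eq_add_neg]
    ring
  rw [h1, e1, e1] at h0
  have h2 : ∫ y, dE A' y * (ct K (y + h) - ct K (y - h)) =
      (∫ y, dE A' y * ct K (y + h)) - ∫ y, dE A' y * ct K (y + -h) := by
    rw [← integral_sub (i1 h) (i1 (-h))]
    refine integral_congr_ae (Eventually.of_forall fun y => ?_)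
    show dE A' y * (ct K (y + h) - ct K (y - h)) = dE A' y * ct K (y + h) -
      dE A' y * ct K (y + -h)
    rw [← sub_eq_add_neg]
    ring
  rw [h2]
  simp only [sub_neg_eq_add, ← sub_eq_add_neg] at h0 ⊢
  linarith

/-- `y` times the discrepancy annihilates the band-limited functions -/
lemma annih3 (hκ : 0 < κ) (hK : TK κ K) (hA' : Monotone A')
    (hb : ∀ y, |A' y| ≤ C0 * (1 + y ^ 2))
    (hm : ∀ K, TK κ K → ∀ h, 0 < h →
      ∫ y, A' y * (ct K (y + h) - ct K (y - h)) = ∫ y, AG y * (ct K (y + h) - ct K (y - h))) :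
    ∫ y, (y * dE A' y) * ct K y = 0 := by
  have hK2 := K2_TK hκ hK
  have hEm := dE_meas hA'
  have hEb := dE_bound hb
  have hC0 : 0 ≤ C0 := by
    have := (abs_nonneg _).trans (hb 0)
    simpa using this
  obtain ⟨D, hD0, hD⟩ := quot_bound hκ hK 2
  have h1 : Tendsto (fun n : ℕ => ∫ y, dE A' y * ((ct (K2 K) (y + 1 / ((n : ℝ) + 1)) -
      ct (K2 K) (y - 1 / ((n : ℝ) + 1))) / (2 * (1 / ((n : ℝ) + 1))))) atTop
      (𝓝 (∫ y, dE A' y * (-(y * ct K y)))) := by
    refine tendsto_integral_of_dominated_convergence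
      (fun y => (2 * C0 + 4) * D * (1 + y ^ 2)⁻¹) (fun n => ?_)
      (integrable_inv_one_add_sq.const_mul _) (fun n => Eventually.of_forall fun y => ?_)
      (Eventually.of_forall fun y => ?_)
    · refine (hEm.mul ?_).aestronglyMeasurable
      refine Measurable.div_const ?_ _
      exact (hK2.ct_cont.measurable.comp (by fun_prop)).sub
        (hK2.ct_cont.measurable.comp (by fun_prop))
    · rw [Real.norm_eq_abs, abs_mul]
      have hn : (0 : ℝ) < 1 / ((n : ℝ) + 1) := by positivity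
      have hn1 : 1 / ((n : ℝ) + 1) ≤ 1 := by
        rw [div_le_one (by positivity)]
        have : (0 : ℝ) ≤ n := Nat.cast_nonneg n
        linarith
      have h2 : 0 < 1 + y ^ 2 := by positivity
      calc |dE A' y| * |(ct (K2 K) (y + 1 / ((n : ℝ) + 1)) -
            ct (K2 K) (y - 1 / ((n : ℝ) + 1))) / (2 * (1 / ((n : ℝ) + 1)))| ≤
            ((2 * C0 + 4) * (1 + y ^ 2)) * (D / (1 + y ^ 2) ^ 2) :=
            mul_le_mul (hEb y) (hD y _ hn hn1) (abs_nonneg _) (by positivity)
        _ = (2 * C0 + 4) * D * (1 + y ^ 2)⁻¹ := by field_simp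
    · refine tendsto_const_nhds.mul ?_
      have hd := ct_K2_deriv hκ hK y
      have hs : HasDerivAt (fun h : ℝ => ct (K2 K) (y + h) - ct (K2 K) (y - h))
          (-(y * ct K y) - -(-(y * ct K y))) 0 := by
        have a1 : HasDerivAt (fun h : ℝ => ct (K2 K) (y + h)) (-(y * ct K y)) 0 := by
          have := HasDerivAt.comp_const_add (f := ct (K2 K)) y 0 (by rw [add_zero]; exact hd)
          exact this
        have a2 : HasDerivAt (fun h : ℝ => ct (K2 K) (y - h)) (-(-(y * ct K y))) 0 := by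
          have := HasDerivAt.comp_const_sub (f := ct (K2 K)) y 0 (by rw [sub_zero]; exact hd)
          exact this
        exact a1.sub a2
      have h3 := hs.tendsto_slope_zero_right
      have ht : Tendsto (fun n : ℕ => 1 / ((n : ℝ) + 1)) atTop (𝓝[>] (0 : ℝ)) := by
        rw [tendsto_nhdsWithin_iff]
        exact ⟨tendsto_one_div_add_atTop_nhds_zero_nat,
          Eventually.of_forall fun n => by
            show (0 : ℝ) < 1 / ((n : ℝ) + 1)
            positivity⟩
      have h4 := (h3.comp ht).div_const 2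
      have e5 : (-(y * ct K y) - -(-(y * ct K y))) / 2 = -(y * ct K y) := by ring
      rw [e5] at h4
      refine h4.congr fun n => ?_
      show (1 / ((n : ℝ) + 1))⁻¹ • ((ct (K2 K) (y + (0 + 1 / ((n : ℝ) + 1))) -
        ct (K2 K) (y - (0 + 1 / ((n : ℝ) + 1)))) - (ct (K2 K) (y + 0) - ct (K2 K) (y - 0))) / 2 = _
      rw [add_zero, sub_zero, sub_self, sub_zero, zero_add, smul_eq_mul]
      have : ((n : ℝ) + 1) ≠ 0 := by positivity
      field_simp
  have h2 : ∀ n : ℕ, ∫ y, dE A' y * ((ct (K2 K) (y + 1 / ((n : ℝ) + 1)) -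
      ct (K2 K) (y - 1 / ((n : ℝ) + 1))) / (2 * (1 / ((n : ℝ) + 1)))) = 0 := by
    intro n
    have hn : (0 : ℝ) < 1 / ((n : ℝ) + 1) := by positivity
    have h3 := annih2 hK2 hA' hb _ (hm (K2 K) hK2 _ hn)
    have e : ∀ y, dE A' y * ((ct (K2 K) (y + 1 / ((n : ℝ) + 1)) -
        ct (K2 K) (y - 1 / ((n : ℝ) + 1))) / (2 * (1 / ((n : ℝ) + 1)))) =
        (2 * (1 / ((n : ℝ) + 1)))⁻¹ * (dE A' y * (ct (K2 K) (y + 1 / ((n : ℝ) + 1)) -
        ct (K2 K) (y - 1 / ((n : ℝ) + 1)))) := by
      intro y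
      ring
    simp_rw [e]
    rw [integral_const_mul, h3, mul_zero]
  simp_rw [h2] at h1
  have h3 := tendsto_nhds_unique h1 tendsto_const_nhds
  have h4 : ∫ y, dE A' y * (-(y * ct K y)) = -∫ y, (y * dE A' y) * ct K y := by
    rw [← integral_neg]
    refine integral_congr_ae (Eventually.of_forall fun y => ?_)
    show dE A' y * (-(y * ct K y)) = -((y * dE A' y) * ct K y)
    ring
  rw [h4] at h3
  linarith

/-- one sided exponentially small error for the anchored windows -/
lemma anchored (hκ : 0 < κ) (hA' : Monotone A')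
    (hneg : ∀ y, y < 0 → A' y = 0) (hb : ∀ y, |A' y| ≤ C0 * (1 + y ^ 2))
    (hm : ∀ K, TK κ K → ∀ h, 0 < h →
      ∫ y, A' y * (ct K (y + h) - ct K (y - h)) = ∫ y, AG y * (ct K (y + h) - ct K (y - h)))
    {s C c a0 : ℝ} (hs : s = 1 ∨ s = -1) (hC : 0 ≤ C) (hc : 0 < c) (ha0 : 0 < a0)
    (hyp : ∀ a, a0 ≤ a → -(C * Real.exp (-(c * a))) ≤ s * (A' a - AG a)) :
    ∀ᵐ x, dE A' x = 0 := by
  have hEm := dE_meas hA'
  have hEb := dE_bound hb
  have hC0 : 0 ≤ C0 := by
    have := (abs_nonneg _).trans (hb 0)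
    simpa using this
  set B : ℝ := 2 * C0 + 4 with hB
  have hB0 : 0 ≤ B := by rw [hB]; positivity
  have hs1 : |s| = 1 := by rcases hs with rfl | rfl <;> simp
  set H : ℝ → ℝ := fun y => s * (y * dE A' y) with hH
  have hHm : Measurable H := measurable_const.mul (measurable_id.mul hEm)
  have hHe : ∀ y, H (-y) = H y := by
    intro y
    simp only [hH]
    rw [dE_odd]
    ring
  have hHb : ∀ y, |H y| ≤ B * (1 + y ^ 2) ^ 2 := by
    intro y
    simp only [hH]
    rw [abs_mul, hs1, one_mul, abs_mul]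
    have h1 : |y| ≤ 1 + y ^ 2 := by
      rw [← sq_abs]
      nlinarith [sq_nonneg (|y| - 1), abs_nonneg y]
    calc |y| * |dE A' y| ≤ (1 + y ^ 2) * (B * (1 + y ^ 2)) :=
          mul_le_mul h1 (hEb y) (abs_nonneg _) (by positivity)
      _ = B * (1 + y ^ 2) ^ 2 := by ring
  set C1 : ℝ := C * (2 / c) + B * (1 + a0 ^ 2) ^ 2 * Real.exp (c / 2 * a0) with hC1
  have hC10 : 0 ≤ C1 := by rw [hC1]; positivity
  have hlow0 : ∀ y, a0 ≤ y → -(C1 * Real.exp (-(c / 2 * y))) ≤ H y := by
    intro y hy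
    have hy0 : 0 < y := lt_of_lt_of_le ha0 hy
    have h1 := hyp y hy
    have e1 : H y = y * (s * (A' y - AG y)) := by
      simp only [hH]
      rw [dE_pos hneg hy0]
      ring
    rw [e1]
    have h2 : y * (-(C * Real.exp (-(c * y)))) ≤ y * (s * (A' y - AG y)) :=
      mul_le_mul_of_nonneg_left h1 hy0.le
    refine le_trans ?_ h2
    have h3 : y * Real.exp (-(c * y)) ≤ 2 / c * Real.exp (-(c / 2 * y)) := by
      have h4 : c / 2 * y ≤ Real.exp (c / 2 * y) := by
        have := Real.add_one_le_exp (c / 2 * y)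
        linarith
      have e2 : Real.exp (-(c * y)) = Real.exp (-(c / 2 * y)) * Real.exp (-(c / 2 * y)) := by
        rw [← Real.exp_add]; ring_nf
      have h5 : c / 2 * y * Real.exp (-(c / 2 * y)) ≤ 1 := by
        rw [Real.exp_neg, ← div_eq_mul_inv, div_le_one (Real.exp_pos _)]
        exact h4
      have h6 : y * Real.exp (-(c / 2 * y)) ≤ 2 / c := by
        rw [le_div_iff₀ hc]
        linarith
      rw [e2, ← mul_assoc]
      exact mul_le_mul_of_nonneg_right h6 (Real.exp_pos _).le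
    have h7 : C * (y * Real.exp (-(c * y))) ≤ C * (2 / c * Real.exp (-(c / 2 * y))) :=
      mul_le_mul_of_nonneg_left h3 hC
    have h8 : 0 ≤ B * (1 + a0 ^ 2) ^ 2 * Real.exp (c / 2 * a0) * Real.exp (-(c / 2 * y)) := by
      positivity
    rw [hC1]
    nlinarith
  have hlow : ∀ᵐ y, -(C1 * Real.exp (-(c / 2 * |y|))) ≤ H y := by
    refine Eventually.of_forall fun y => ?_
    by_cases hyR : a0 ≤ |y|
    · have h1 := hlow0 |y| hyR
      rcases abs_cases y with ⟨h2, _⟩ | ⟨h2, _⟩
      · rw [h2] at h1 ⊢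
        exact h1
      · rw [h2] at h1 ⊢
        rw [hHe] at h1
        exact h1
    · push Not at hyR
      have h1 := neg_abs_le (H y)
      have h2 := hHb y
      have h3 : B * (1 + y ^ 2) ^ 2 ≤ B * (1 + a0 ^ 2) ^ 2 := by
        refine mul_le_mul_of_nonneg_left ?_ hB0
        refine pow_le_pow_left₀ (by positivity) ?_ 2
        have : y ^ 2 ≤ a0 ^ 2 := by
          rw [← sq_abs]
          exact pow_le_pow_left₀ (abs_nonneg _) hyR.le 2
        linarith
      have h4 : 1 ≤ Real.exp (c / 2 * a0) * Real.exp (-(c / 2 * |y|)) := by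
        rw [← Real.exp_add]
        refine Real.one_le_exp ?_
        nlinarith
      have h5 : B * (1 + a0 ^ 2) ^ 2 ≤ C1 * Real.exp (-(c / 2 * |y|)) := by
        rw [hC1]
        have h6 : 0 ≤ C * (2 / c) * Real.exp (-(c / 2 * |y|)) := by positivity
        have h7 : B * (1 + a0 ^ 2) ^ 2 * 1 ≤ B * (1 + a0 ^ 2) ^ 2 * (Real.exp (c / 2 * a0) *
            Real.exp (-(c / 2 * |y|))) := mul_le_mul_of_nonneg_left h4 (by positivity)
        nlinarith
      linarith
  have hz : ∀ K, TK κ K → ∫ y, H y * ct K y = 0 := by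
    intro K hK
    have h1 := annih3 hκ hK hA' hb hm
    have h2 : ∫ y, H y * ct K y = s * ∫ y, (y * dE A' y) * ct K y := by
      rw [← integral_const_mul]
      refine integral_congr_ae (Eventually.of_forall fun y => ?_)
      show s * (y * dE A' y) * ct K y = _
      ring
    rw [h2, h1, mul_zero]
  have hfin := high_pass hκ hHm hHe hHb hC10 (by positivity : 0 < c / 2) hlow hz
  have h0 : ∀ᵐ x : ℝ, x ≠ 0 := by
    rw [ae_iff]
    simp
  filter_upwards [hfin, h0] with y hy hy0
  have hs0 : s ≠ 0 := by rcases hs with rfl | rfl <;> norm_num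
  exact (mul_eq_zero.1 ((mul_eq_zero.1 hy).resolve_left hs0)).resolve_left hy0

/-- conclusion for a limit -/
lemma limit_anchored (hA' : Monotone A')
    (hneg : ∀ y, y < 0 → A' y = 0) (hb : ∀ y, |A' y| ≤ C0 * (1 + y ^ 2)) (h0 : 1 ≤ A' 0)
    (h : ∀ᵐ x, dE A' x = 0) (x : ℝ) : A' x = AG x := by
  have hsh : ∀ l : ℝ, ∀ᵐ x, dE A' (x + l) = dE A' x := by
    intro l
    have h2 := (measurePreserving_add_right (volume : Measure ℝ) l).quasiMeasurePreserving.ae h
    filter_upwards [h2, h] with x hx hx2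
    rw [hx, hx2]
  have hirr : Irrational (√2 / 1) := by
    rw [div_one]
    exact irrational_sqrt_two
  exact limit_eq hA' hneg hb h0 hirr (hsh _) (hsh _) x

end Pool.Agent.Y744.ANC
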