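import Pool.Agent.Y744.ANC.Anch
import Pool.Agent.Y744.PCR.Glue

/-! The anchored windows: the theorem for the zeros. -/

open MeasureTheory Filter Topology Real

namespace Pool.Agent.Y744.ANC

open Pool.Agent.Y744 Pool.Agent.Y744.G

theorem anch_Aa (RH : RiemannHypothesis) {l : Filter ℝ} (hl : l ≤ atTop) {s C c a0 : ℝ}
    (hs : s = 1 ∨ s = -1) (hC : 0 ≤ C) (hc : 0 < c) (ha0 : 0 < a0)
    (hyp : ∀ a, a0 ≤ a → ∀ ε, 0 < ε → ∀ᶠ T in l,
      -(C * Real.exp (-(c * a))) - ε ≤ s * (Aa T a - AG a)) (x : ℝ) :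
    Tendsto (fun T => Aa T x) l (𝓝 (AG x)) := by
  rw [tendsto_iff_ultrafilter]
  intro g hg
  have hgt : (g : Filter ℝ) ≤ atTop := hg.trans hl
  obtain ⟨A', C0, hA', hneg, hb, h0, hlim, hm⟩ := exists_limit RH g hgt
  have c1 : ∀ a, a0 ≤ a → -(C * Real.exp (-(c * a))) ≤ s * (A' a - AG a) := by
    intro a ha
    refine le_of_forall_pos_le_add fun ε hε => ?_
    have h1 : Tendsto (fun T => s * (Aa T a - AG a)) (g : Filter ℝ) (𝓝 (s * (A' a - AG a))) :=
      ((hlim a).sub_const _).const_mul _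
    have h2 := ge_of_tendsto h1 (hg (hyp a ha ε hε))
    linarith
  have p1 := anchored (κ := 1 / 2) (by norm_num) hA' hneg hb hm hs hC hc ha0 c1
  have := limit_anchored hA' hneg hb h0 p1 x
  rw [← this]
  exact hlim x

lemma Nr_sym (T : ℝ) (v : ℝ) : Nr T (-v) v = Aa T v := by
  unfold Nr Aa
  rw [div_eq_inv_mul]
  congr 2
  ext x
  show -v ≤ x ∧ x ≤ v ↔ |x| ≤ v
  rw [abs_le]

lemma pr_sym {v : ℝ} (hv : 0 ≤ v) : pr (-v) v = AG v := by
  unfold pr AG
  rw [gp_odd, if_neg (by linarith), Set.indicator_of_mem (by constructor <;> linarith)]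
  ring

/-- one sided bound for the anchored windows -/
def AnchoredBound (F : Filter ℝ) (s : ℝ) : Prop := ∃ C c A : ℝ, 0 < C ∧ 0 < c ∧ 0 < A ∧
  ∀ v : ℝ, A ≤ v → ∀ ε : ℝ, 0 < ε → ∀ᶠ T in F, s * D T (-v) v ≤ C * Real.exp (-(c * v)) + ε

theorem main (RH : RiemannHypothesis) (F : Filter ℝ) (hF : F ≤ atTop) (s : ℝ)
    (hs : s = 1 ∨ s = -1) : Montgomery F ↔ AnchoredBound F s := by
  have hev : ∀ᶠ T in F, 1 < T := hF (eventually_gt_atTop 1)
  rw [Mont_iff hF]
  constructor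
  · intro h
    refine ⟨1, 1, 1, one_pos, one_pos, one_pos, fun v hv ε hε => ?_⟩
    have h1 := h (-v) v (by linarith)
    filter_upwards [(Metric.tendsto_nhds.1 h1) ε hε, hev] with T hT hT1
    rw [Real.dist_eq, ← D_eq hT1] at hT
    have h2 := abs_lt.1 hT
    have h3 := Real.exp_pos (-(1 * v))
    rcases hs with rfl | rfl <;> linarith [h2.1, h2.2]
  · rintro ⟨C, c, A, hC, hc, hA, h⟩ α β hαβ
    have hs' : -s = 1 ∨ -s = -1 := by
      rcases hs with rfl | rfl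
      · right; rfl
      · left; norm_num
    refine Nr_all hF (anch_Aa RH hF hs' hC.le hc hA fun a ha ε hε => ?_) hαβ
    filter_upwards [h a ha ε hε, hev] with T hT hT1
    rw [D_eq hT1, Nr_sym, pr_sym (by linarith)] at hT
    linarith

end Pool.Agent.Y744.ANC
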