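import Pool.Agent.Y744.PCR.HighPass2

/-! A function with a spectral gap around `0` whose negative part is exponentially small
vanishes. -/

open MeasureTheory Filter Topology Real ProbabilityTheory
open scoped ContDiff ENNReal

namespace Pool.Agent.Y744.ANC

open Pool.Agent.Y744

section

variable {κ : ℝ} {H : ℝ → ℝ} {B C c : ℝ} {m : ℕ}

lemma int_mul_ct (hm : Measurable H) (hB : ∀ x, |H x| ≤ B * (1 + x ^ 2) ^ m) {K : ℝ → ℝ}
    (hK : TK κ K) : Integrable fun x => H x * ct K x := by
  obtain ⟨D, hD0, hD⟩ := hK.decay (m + 1)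
  have hB0 : 0 ≤ B := by
    have := (abs_nonneg _).trans (hB 0)
    simpa using this
  refine (integrable_inv_one_add_sq.const_mul (B * D)).mono'
    (hm.mul hK.ct_cont.measurable).aestronglyMeasurable (Eventually.of_forall fun x => ?_)
  rw [Real.norm_eq_abs, abs_mul]
  have h1 : 0 < 1 + x ^ 2 := by positivity
  calc |H x| * |ct K x| ≤ (B * (1 + x ^ 2) ^ m) * (D / (1 + x ^ 2) ^ (m + 1)) := by
        gcongr
        · exact hB x
        · exact hD x
    _ = B * D * (1 + x ^ 2)⁻¹ := by field_simp; ring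

/-- the even moments of the positive part -/
lemma moment (hκ : 0 < κ) (hm : Measurable H) (hB : ∀ x, |H x| ≤ B * (1 + x ^ 2) ^ m) (hC : 0 ≤ C)
    (hl : ∀ᵐ x, -(C * Real.exp (-(c * |x|))) ≤ H x)
    (hz : ∀ K, TK κ K → ∫ x, H x * ct K x = 0) (k : ℕ) :
    ∫⁻ x, ENNReal.ofReal (max (H x) 0 * x ^ (2 * k)) ≤
      ∫⁻ x, ENNReal.ofReal (C * Real.exp (-(c * |x|)) * x ^ (2 * k)) := by
  obtain ⟨K, hK, hpos, h0, hle⟩ := exists_pos hκ
  set M := ct K 0 with hM
  have hmp : Measurable fun x => max (H x) 0 := hm.max measurable_const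
  have hmn : Measurable fun x => max (-H x) 0 := hm.neg.max measurable_const
  -- for each `ε`
  have main : ∀ ε : ℝ, 0 < ε → ε ≤ 1 →
      ∫⁻ x, ENNReal.ofReal (max (H x) 0 * x ^ (2 * k) * ct K (ε * x)) ≤
      ∫⁻ x, ENNReal.ofReal (C * Real.exp (-(c * |x|)) * x ^ (2 * k) * M) := by
    intro ε hε hε1
    obtain ⟨K', hK', e'⟩ := (hK.dil hε).x_pow_mul k
    have hK'' : TK κ K' := hK'.mono (by nlinarith)
    have e : ∀ x, ct K' x = x ^ (2 * k) * ct K (ε * x) := fun x => by
      rw [← e', TK.ct_dil K hε]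
    have hnn : ∀ x, 0 ≤ ct K' x := fun x => by
      rw [e, pow_mul]
      have := hpos (ε * x)
      positivity
    have h1 := hz K' hK''
    have hi := int_mul_ct hm hB hK''
    have hBp : ∀ x, |max (H x) 0| ≤ B * (1 + x ^ 2) ^ m := fun x => by
      rw [abs_of_nonneg (le_max_right _ _)]
      have := hB x
      exact max_le ((le_abs_self _).trans this) ((abs_nonneg _).trans this)
    have hBn : ∀ x, |max (-H x) 0| ≤ B * (1 + x ^ 2) ^ m := fun x => by
      rw [abs_of_nonneg (le_max_right _ _)]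
      have := hB x
      exact max_le ((neg_le_abs _).trans this) ((abs_nonneg _).trans this)
    have hip := int_mul_ct hmp hBp hK''
    have hin := int_mul_ct hmn hBn hK''
    have h2 : ∫ x, max (H x) 0 * ct K' x = ∫ x, max (-H x) 0 * ct K' x := by
      have h3 : ∫ x, H x * ct K' x = (∫ x, max (H x) 0 * ct K' x) -
          ∫ x, max (-H x) 0 * ct K' x := by
        rw [← integral_sub hip hin]
        refine integral_congr_ae (Eventually.of_forall fun x => ?_)
        show H x * ct K' x = max (H x) 0 * ct K' x - max (-H x) 0 * ct K' x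
        have : H x = max (H x) 0 - max (-H x) 0 := by
          rcases le_total (H x) 0 with h | h
          · rw [max_eq_right h, max_eq_left (by linarith)]; ring
          · rw [max_eq_left h, max_eq_right (by linarith)]; ring
        nth_rewrite 1 [this]
        ring
      linarith
    have h4 : ∫⁻ x, ENNReal.ofReal (max (H x) 0 * ct K' x) =
        ∫⁻ x, ENNReal.ofReal (max (-H x) 0 * ct K' x) := by
      rw [← ofReal_integral_eq_lintegral_ofReal hip (Eventually.of_forall fun x =>
        mul_nonneg (le_max_right _ _) (hnn x)), h2,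
        ofReal_integral_eq_lintegral_ofReal hin (Eventually.of_forall fun x =>
        mul_nonneg (le_max_right _ _) (hnn x))]
    have h5 : ∫⁻ x, ENNReal.ofReal (max (H x) 0 * x ^ (2 * k) * ct K (ε * x)) =
        ∫⁻ x, ENNReal.ofReal (max (H x) 0 * ct K' x) := by
      refine lintegral_congr fun x => ?_
      rw [e, mul_assoc]
    rw [h5, h4]
    refine lintegral_mono_ae ?_
    filter_upwards [hl] with x hx
    refine ENNReal.ofReal_le_ofReal ?_
    rw [e, ← mul_assoc]
    have h6 : max (-H x) 0 ≤ C * Real.exp (-(c * |x|)) :=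
      max_le (by linarith) (by positivity)
    have h7 : 0 ≤ x ^ (2 * k) := by rw [pow_mul]; positivity
    have h8 : 0 ≤ C * Real.exp (-(c * |x|)) * x ^ (2 * k) := by positivity
    exact mul_le_mul (mul_le_mul_of_nonneg_right h6 h7) (hle _) (hpos _) h8
  -- Fatou
  have hMpos : ENNReal.ofReal M ≠ 0 := by simpa using h0
  have key : ∫⁻ x, ENNReal.ofReal (max (H x) 0 * x ^ (2 * k) * M) ≤
      ∫⁻ x, ENNReal.ofReal (C * Real.exp (-(c * |x|)) * x ^ (2 * k) * M) := by
    set f : ℕ → ℝ → ℝ≥0∞ := fun n x =>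
      ENNReal.ofReal (max (H x) 0 * x ^ (2 * k) * ct K (1 / ((n : ℝ) + 1) * x)) with hf
    have hfm : ∀ n, Measurable (f n) := fun n => by
      refine ENNReal.measurable_ofReal.comp ?_
      exact (hmp.mul (by fun_prop)).mul (hK.ct_cont.measurable.comp (by fun_prop))
    have hlim : ∀ x, liminf (fun n => f n x) atTop =
        ENNReal.ofReal (max (H x) 0 * x ^ (2 * k) * M) := by
      intro x
      refine Tendsto.liminf_eq ?_
      refine ENNReal.tendsto_ofReal ?_
      refine tendsto_const_nhds.mul ?_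
      have h1 : Tendsto (fun n : ℕ => 1 / ((n : ℝ) + 1) * x) atTop (𝓝 (0 * x)) :=
        tendsto_one_div_add_atTop_nhds_zero_nat.mul_const x
      rw [zero_mul] at h1
      exact (hK.ct_cont.tendsto 0).comp h1
    calc ∫⁻ x, ENNReal.ofReal (max (H x) 0 * x ^ (2 * k) * M) =
          ∫⁻ x, liminf (fun n => f n x) atTop := lintegral_congr fun x => (hlim x).symm
      _ ≤ liminf (fun n => ∫⁻ x, f n x) atTop := lintegral_liminf_le hfm
      _ ≤ _ := by
          refine liminf_le_of_le (by isBoundedDefault) fun b hb => ?_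
          obtain ⟨n, hn⟩ := hb.exists
          refine hn.trans (main _ (by positivity) ?_)
          rw [div_le_one (by positivity)]
          have : (0 : ℝ) ≤ n := Nat.cast_nonneg n
          linarith
  have hr : ∀ (u : ℝ → ℝ), Measurable u → (∀ x, 0 ≤ u x) →
      ∫⁻ x, ENNReal.ofReal (u x * M) = (∫⁻ x, ENNReal.ofReal (u x)) * ENNReal.ofReal M := by
    intro u hu hu0
    have h1 := lintegral_mul_const (μ := (volume : Measure ℝ)) (ENNReal.ofReal M)
      (f := fun x => ENNReal.ofReal (u x)) hu.ennreal_ofReal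
    rw [← h1]
    exact lintegral_congr fun x => ENNReal.ofReal_mul (hu0 x)
  have hx2 : ∀ x : ℝ, 0 ≤ x ^ (2 * k) := fun x => by rw [pow_mul]; positivity
  rw [hr (fun x => max (H x) 0 * x ^ (2 * k)) (hmp.mul (by fun_prop))
      (fun x => mul_nonneg (le_max_right _ _) (hx2 x)),
    hr (fun x => C * Real.exp (-(c * |x|)) * x ^ (2 * k)) (by fun_prop)
      (fun x => mul_nonneg (by positivity) (hx2 x))] at key
  exact (ENNReal.mul_le_mul_iff_left hMpos ENNReal.ofReal_ne_top).1 key

lemma cosh_series (u : ℝ → ℝ) (hu : Measurable u) (hu0 : ∀ x, 0 ≤ u x) (a : ℝ) :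
    ∫⁻ x, ENNReal.ofReal (u x * Real.cosh (a * x)) =
      ∑' k : ℕ, ENNReal.ofReal (a ^ (2 * k) / ((2 * k).factorial : ℝ)) *
        ∫⁻ x, ENNReal.ofReal (u x * x ^ (2 * k)) := by
  have h1 : ∀ x, ENNReal.ofReal (u x * Real.cosh (a * x)) =
      ∑' k : ℕ, ENNReal.ofReal (a ^ (2 * k) / ((2 * k).factorial : ℝ)) *
        ENNReal.ofReal (u x * x ^ (2 * k)) := by
    intro x
    have hs := (Real.hasSum_cosh (a * x)).mul_left (u x)
    rw [← hs.tsum_eq, ENNReal.ofReal_tsum_of_nonneg (fun n => ?_) hs.summable]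
    · refine tsum_congr fun k => ?_
      rw [← ENNReal.ofReal_mul (by rw [pow_mul]; positivity)]
      congr 1
      rw [mul_pow]
      ring
    · have h2 : 0 ≤ (a * x) ^ (2 * n) := by rw [pow_mul]; positivity
      have := hu0 x
      positivity
  simp_rw [h1]
  rw [lintegral_tsum (fun k => ?_)]
  · refine tsum_congr fun k => ?_
    rw [lintegral_const_mul]
    exact ENNReal.measurable_ofReal.comp (hu.mul (by fun_prop))
  · exact (measurable_const.mul (ENNReal.measurable_ofReal.comp (hu.mul (by fun_prop)))).aemeasurable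

/-- exponential moments -/
lemma exp_moment (hκ : 0 < κ) (hm : Measurable H) (hB : ∀ x, |H x| ≤ B * (1 + x ^ 2) ^ m)
    (hC : 0 ≤ C) (hc : 0 < c) (hl : ∀ᵐ x, -(C * Real.exp (-(c * |x|))) ≤ H x)
    (hz : ∀ K, TK κ K → ∫ x, H x * ct K x = 0) :
    Integrable fun x => |H x| * Real.exp (c / 2 * |x|) := by
  have hmp : Measurable fun x => max (H x) 0 := hm.max measurable_const
  have h1 := cosh_series (fun x => max (H x) 0) hmp (fun x => le_max_right _ _) (c / 2)
  have h2 := cosh_series (fun x => C * Real.exp (-(c * |x|))) (by fun_prop)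
    (fun x => by positivity) (c / 2)
  have hcosh : ∀ x : ℝ, Real.cosh (c / 2 * x) ≤ Real.exp (c / 2 * |x|) := by
    intro x
    rw [Real.cosh_eq]
    have a1 : Real.exp (c / 2 * x) ≤ Real.exp (c / 2 * |x|) :=
      Real.exp_le_exp.2 (mul_le_mul_of_nonneg_left (le_abs_self x) (by linarith))
    have a2 : Real.exp (-(c / 2 * x)) ≤ Real.exp (c / 2 * |x|) :=
      Real.exp_le_exp.2 (by
        rw [← mul_neg]
        exact mul_le_mul_of_nonneg_left (neg_le_abs x) (by linarith))
    linarith
  have hcosh2 : ∀ x : ℝ, Real.exp (c / 2 * |x|) ≤ 2 * Real.cosh (c / 2 * x) := by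
    intro x
    rw [Real.cosh_eq]
    have b1 := Real.exp_pos (c / 2 * x)
    have b2 := Real.exp_pos (-(c / 2 * x))
    rcases abs_cases x with ⟨h, _⟩ | ⟨h, _⟩
    · rw [h]; linarith
    · rw [h, mul_neg]; linarith
  have h3 : ∫⁻ x, ENNReal.ofReal (C * Real.exp (-(c * |x|)) * Real.cosh (c / 2 * x)) < ⊤ := by
    have hi : Integrable fun x : ℝ => C * Real.exp (-(c / 2 * |x|)) :=
      (integrable_exp_neg_abs (by linarith)).const_mul C
    refine lt_of_le_of_lt (lintegral_mono fun x => ENNReal.ofReal_le_ofReal ?_)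
      hi.lintegral_lt_top
    have e : Real.exp (-(c / 2 * |x|)) = Real.exp (-(c * |x|)) * Real.exp (c / 2 * |x|) := by
      rw [← Real.exp_add]; ring_nf
    show C * Real.exp (-(c * |x|)) * Real.cosh (c / 2 * x) ≤ C * Real.exp (-(c / 2 * |x|))
    rw [e, mul_assoc]
    exact mul_le_mul_of_nonneg_left (mul_le_mul_of_nonneg_left (hcosh x) (Real.exp_pos _).le) hC
  have h4 : ∫⁻ x, ENNReal.ofReal (max (H x) 0 * Real.cosh (c / 2 * x)) < ⊤ := by
    refine lt_of_le_of_lt ?_ h3
    rw [h1, h2]
    exact ENNReal.tsum_le_tsum fun k => mul_le_mul_right (moment hκ hm hB hC hl hz k) _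
  have h5 : Integrable fun x => max (H x) 0 * Real.cosh (c / 2 * x) := by
    refine ⟨(hmp.mul (by fun_prop)).aestronglyMeasurable, ?_⟩
    rw [hasFiniteIntegral_iff_ofReal (Eventually.of_forall fun x =>
      mul_nonneg (le_max_right _ _) (Real.cosh_pos _).le)]
    exact h4
  have h6 : Integrable fun x : ℝ => C * Real.exp (-(c / 2 * |x|)) :=
    (integrable_exp_neg_abs (by linarith)).const_mul C
  refine ((h5.const_mul 2).add h6).mono' (hm.abs.mul (by fun_prop)).aestronglyMeasurable ?_
  filter_upwards [hl] with x hx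
  rw [Real.norm_eq_abs, abs_mul, abs_abs, abs_of_pos (Real.exp_pos _)]
  show |H x| * Real.exp (c / 2 * |x|) ≤ 2 * (max (H x) 0 * Real.cosh (c / 2 * x)) +
    C * Real.exp (-(c / 2 * |x|))
  have e : Real.exp (-(c / 2 * |x|)) = Real.exp (-(c * |x|)) * Real.exp (c / 2 * |x|) := by
    rw [← Real.exp_add]; ring_nf
  have h7 : |H x| ≤ max (H x) 0 + C * Real.exp (-(c * |x|)) := by
    rcases abs_cases (H x) with ⟨h, h'⟩ | ⟨h, h'⟩
    · rw [h]
      have := le_max_left (H x) 0
      have : 0 ≤ C * Real.exp (-(c * |x|)) := by positivity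
      linarith
    · rw [h]
      have := le_max_right (H x) 0
      linarith
  calc |H x| * Real.exp (c / 2 * |x|) ≤
        (max (H x) 0 + C * Real.exp (-(c * |x|))) * Real.exp (c / 2 * |x|) :=
        mul_le_mul_of_nonneg_right h7 (Real.exp_pos _).le
    _ = max (H x) 0 * Real.exp (c / 2 * |x|) + C * Real.exp (-(c / 2 * |x|)) := by rw [e]; ring
    _ ≤ _ := by
        have := mul_le_mul_of_nonneg_left (hcosh2 x) (le_max_right (H x) 0)
        linarith

/-- the Fourier transform vanishes near `0` -/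
lemma cos_zero (hκ : 0 < κ) (hm : Measurable H) (hB : ∀ x, |H x| ≤ B * (1 + x ^ 2) ^ m)
    (hC : 0 ≤ C) (hc : 0 < c) (hl : ∀ᵐ x, -(C * Real.exp (-(c * |x|))) ≤ H x)
    (hz : ∀ K, TK κ K → ∫ x, H x * ct K x = 0) {s : ℝ} (hs : |s| ≤ κ / 2) :
    ∫ x, H x * Real.cos (2 * π * s * x) = 0 := by
  obtain ⟨K, hK, hpos, h0, hle⟩ := exists_pos (κ := κ / 2) (by positivity)
  set M := ct K 0 with hM
  have hi : Integrable H := by
    refine (exp_moment hκ hm hB hC hc hl hz).mono' hm.aestronglyMeasurable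
      (Eventually.of_forall fun x => ?_)
    rw [Real.norm_eq_abs]
    exact le_mul_of_one_le_right (abs_nonneg _) (Real.one_le_exp (by positivity))
  have h1 : Tendsto (fun n : ℕ => ∫ x, H x * (Real.cos (2 * π * s * x) *
      ct K (1 / ((n : ℝ) + 1) * x))) atTop (𝓝 (∫ x, H x * (Real.cos (2 * π * s * x) * M))) := by
    refine tendsto_integral_of_dominated_convergence (fun x => |H x| * M) (fun n => ?_)
      (hi.abs.mul_const M) (fun n => Eventually.of_forall fun x => ?_)
      (Eventually.of_forall fun x => ?_)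
    · exact (hm.mul ((by fun_prop : Measurable fun x : ℝ => Real.cos (2 * π * s * x)).mul
        (hK.ct_cont.measurable.comp (by fun_prop)))).aestronglyMeasurable
    · rw [Real.norm_eq_abs, abs_mul, abs_mul, abs_of_nonneg (hpos _)]
      refine mul_le_mul_of_nonneg_left ?_ (abs_nonneg _)
      calc |Real.cos (2 * π * s * x)| * ct K (1 / ((n : ℝ) + 1) * x) ≤ 1 * M :=
            mul_le_mul (Real.abs_cos_le_one _) (hle _) (hpos _) zero_le_one
        _ = M := one_mul M
    · refine tendsto_const_nhds.mul (tendsto_const_nhds.mul ?_)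
      have h1 : Tendsto (fun n : ℕ => 1 / ((n : ℝ) + 1) * x) atTop (𝓝 (0 * x)) :=
        tendsto_one_div_add_atTop_nhds_zero_nat.mul_const x
      rw [zero_mul] at h1
      exact (hK.ct_cont.tendsto 0).comp h1
  have h2 : ∀ n : ℕ, ∫ x, H x * (Real.cos (2 * π * s * x) * ct K (1 / ((n : ℝ) + 1) * x)) = 0 := by
    intro n
    have hε : (0 : ℝ) < 1 / ((n : ℝ) + 1) := by positivity
    have hε1 : 1 / ((n : ℝ) + 1) ≤ 1 := by
      rw [div_le_one (by positivity)]
      have : (0 : ℝ) ≤ n := Nat.cast_nonneg n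
      linarith
    have hK' := (hK.dil hε).modul s
    have hK'' := hK'.mono (κ' := κ) (by nlinarith)
    have h3 := hz _ hK''
    rw [← h3]
    refine integral_congr_ae (Eventually.of_forall fun x => ?_)
    show H x * (Real.cos (2 * π * s * x) * ct K (1 / ((n : ℝ) + 1) * x)) = H x * _
    rw [(hK.dil hε).ct_modul, TK.ct_dil K hε]
  simp_rw [h2] at h1
  have h3 := tendsto_nhds_unique h1 tendsto_const_nhds
  have h4 : ∫ x, H x * (Real.cos (2 * π * s * x) * M) =
      (∫ x, H x * Real.cos (2 * π * s * x)) * M := by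
    rw [← integral_mul_const]
    refine integral_congr_ae (Eventually.of_forall fun x => ?_)
    show H x * (Real.cos (2 * π * s * x) * M) = H x * Real.cos (2 * π * s * x) * M
    ring
  rw [h4] at h3
  exact (mul_eq_zero.1 h3).resolve_right h0.ne'

end

end Pool.Agent.Y744.ANC
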