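import Pool.Agent.Y744.ANC.HP2

/-! The kernel `y ct K y` is the derivative of a test function. -/

open MeasureTheory Filter Topology Real
open scoped ContDiff

namespace Pool.Agent.Y744.ANC

open Pool.Agent.Y744

/-- weighted radial averages -/
noncomputable def PI (k : ℕ) (φ : ℝ → ℝ) (α : ℝ) : ℝ := ∫ t in (0 : ℝ)..1, t ^ k * φ (t * α)

lemma PI_deriv (k : ℕ) {φ : ℝ → ℝ} (hφ : ContDiff ℝ 1 φ) (α : ℝ) :
    HasDerivAt (PI k φ) (PI (k + 1) (deriv φ) α) α := by
  have hd : Differentiable ℝ φ := hφ.differentiable (by norm_num)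
  have hc' : Continuous (deriv φ) := hφ.continuous_deriv (by norm_num)
  obtain ⟨M, hM⟩ := (isCompact_Icc (a := -(|α| + 1)) (b := |α| + 1)).exists_bound_of_continuousOn
    hc'.continuousOn
  refine (intervalIntegral.hasDerivAt_integral_of_dominated_loc_of_deriv_le (μ := volume)
    (F := fun α t => t ^ k * φ (t * α)) (F' := fun α t => t ^ (k + 1) * deriv φ (t * α))
    (bound := fun _ => |M|) (Metric.ball_mem_nhds α one_pos) ?_ ?_ ?_ ?_ ?_ ?_).2
  · refine Eventually.of_forall fun x => ?_
    have : Continuous fun t : ℝ => t ^ k * φ (t * x) :=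
      (continuous_pow k).mul (hφ.continuous.comp (by fun_prop))
    exact this.aestronglyMeasurable
  · have : Continuous fun t : ℝ => t ^ k * φ (t * α) :=
      (continuous_pow k).mul (hφ.continuous.comp (by fun_prop))
    exact this.intervalIntegrable _ _
  · have : Continuous fun t : ℝ => t ^ (k + 1) * deriv φ (t * α) :=
      (continuous_pow _).mul (hc'.comp (by fun_prop))
    exact this.aestronglyMeasurable
  · refine Eventually.of_forall fun t ht x hx => ?_
    rw [Set.uIoc_of_le zero_le_one] at ht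
    rw [Metric.mem_ball, Real.dist_eq] at hx
    have hxa : |x| ≤ |α| + 1 := by
      have := abs_sub_abs_le_abs_sub x α
      linarith
    have h1 : |t * x| ≤ |α| + 1 := by
      rw [abs_mul, abs_of_pos ht.1]
      nlinarith [abs_nonneg x, ht.2, ht.1]
    have h2 := hM (t * x) (abs_le.1 h1)
    rw [norm_mul]
    have h3 : ‖t ^ (k + 1)‖ ≤ 1 := by
      rw [Real.norm_eq_abs, abs_of_nonneg (pow_nonneg ht.1.le _)]
      exact pow_le_one₀ ht.1.le ht.2
    calc ‖t ^ (k + 1)‖ * ‖deriv φ (t * x)‖ ≤ 1 * |M| :=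
          mul_le_mul h3 (h2.trans (le_abs_self _)) (norm_nonneg _) zero_le_one
      _ = |M| := one_mul _
  · exact intervalIntegrable_const
  · refine Eventually.of_forall fun t _ x _ => ?_
    have h1 : HasDerivAt (fun x => φ (t * x)) (deriv φ (t * x) * t) x := by
      have h2 : HasDerivAt (fun x : ℝ => t * x) t x := by
        simpa using (hasDerivAt_id x).const_mul t
      exact (hd (t * x)).hasDerivAt.comp x h2
    have h3 := h1.const_mul (t ^ k)
    refine h3.congr_deriv ?_
    ring

lemma PI_contDiff (n : ℕ) : ∀ (k : ℕ) {φ : ℝ → ℝ}, ContDiff ℝ ∞ φ → ContDiff ℝ n (PI k φ) := by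
  induction n with
  | zero =>
    intro k φ hφ
    rw [Nat.cast_zero, contDiff_zero]
    exact continuous_iff_continuousAt.2 fun x =>
      (PI_deriv k (hφ.of_le (by norm_num)) x).continuousAt
  | succ n ih =>
    intro k φ hφ
    have h1 : ∀ x, HasDerivAt (PI k φ) (PI (k + 1) (deriv φ) x) x := fun x =>
      PI_deriv k (hφ.of_le (by norm_num)) x
    rw [Nat.cast_succ, contDiff_succ_iff_deriv]
    refine ⟨fun x => (h1 x).differentiableAt, by simp, ?_⟩
    have h2 : deriv (PI k φ) = PI (k + 1) (deriv φ) := funext fun x => (h1 x).deriv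
    rw [h2]
    exact ih _ (TK.deriv_smooth hφ)

lemma PI_smooth (k : ℕ) {φ : ℝ → ℝ} (hφ : ContDiff ℝ ∞ φ) : ContDiff ℝ ∞ (PI k φ) :=
  contDiff_infty.2 fun n => PI_contDiff n k hφ

lemma mul_PI {φ : ℝ → ℝ} (hφ : ContDiff ℝ 1 φ) (α : ℝ) : α * PI 0 (deriv φ) α = φ α - φ 0 := by
  unfold PI
  rw [← intervalIntegral.integral_const_mul]
  have hd : Differentiable ℝ φ := hφ.differentiable (by norm_num)
  have hc' : Continuous (deriv φ) := hφ.continuous_deriv (by norm_num)
  have h1 : ∀ t : ℝ, HasDerivAt (fun t => φ (t * α)) (deriv φ (t * α) * α) t := by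
    intro t
    have h2 : HasDerivAt (fun t : ℝ => t * α) α t := by
      simpa using (hasDerivAt_id t).mul_const α
    exact (hd (t * α)).hasDerivAt.comp t h2
  have hi : Continuous fun t : ℝ => deriv φ (t * α) * α :=
    (hc'.comp (by fun_prop : Continuous fun t : ℝ => t * α)).mul continuous_const
  have h3 := intervalIntegral.integral_eq_sub_of_hasDerivAt (a := 0) (b := 1)
    (f := fun t => φ (t * α)) (f' := fun t => deriv φ (t * α) * α) (fun t _ => h1 t)
    (hi.intervalIntegrable _ _)
  rw [one_mul, zero_mul] at h3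
  rw [← h3]
  refine intervalIntegral.integral_congr fun t _ => ?_
  show α * (t ^ 0 * deriv φ (t * α)) = deriv φ (t * α) * α
  ring

/-- the test function whose derivative is `-y ct K y` -/
noncomputable def K2 (K : ℝ → ℝ) : ℝ → ℝ := PI 0 (TK.D K)

variable {κ : ℝ} {K : ℝ → ℝ}

lemma D_deriv (hK : TK κ K) (x : ℝ) :
    TK.D K x = deriv (fun α => -(deriv K α) / (4 * π ^ 2)) x := by
  have hs1 := TK.deriv_smooth hK.smooth
  have hd2 : Differentiable ℝ (deriv K) := hs1.differentiable (by simp)
  have := ((hd2 x).hasDerivAt.neg.div_const (4 * π ^ 2)).deriv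
  unfold TK.D
  rw [← this]
  rfl

lemma mul_K2 (hK : TK κ K) (α : ℝ) : α * K2 K α = -(deriv K α) / (4 * π ^ 2) := by
  have hs1 := TK.deriv_smooth hK.smooth
  have e : TK.D K = deriv (fun α => -(deriv K α) / (4 * π ^ 2)) := funext (D_deriv hK)
  have hφ : ContDiff ℝ 1 fun α => -(deriv K α) / (4 * π ^ 2) :=
    ((hs1.of_le (by norm_num)).neg).div_const _
  have h0 : deriv K 0 = 0 := by
    have h1 : (fun x => K (-x)) = K := funext hK.even
    have h3 := deriv_comp_neg K 0
    rw [h1, neg_zero] at h3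
    linarith
  unfold K2
  rw [e, mul_PI hφ, h0]
  ring

lemma K2_TK (hκ : 0 < κ) (hK : TK κ K) : TK κ (K2 K) where
  smooth := PI_smooth 0 hK.D_TK.smooth
  even := by
    intro x
    unfold K2 PI
    refine intervalIntegral.integral_congr fun t _ => ?_
    show t ^ 0 * TK.D K (t * (-x)) = t ^ 0 * TK.D K (t * x)
    rw [mul_neg, hK.D_TK.even]
  supp := by
    intro x hx
    have hx0 : x ≠ 0 := by
      rintro rfl
      rw [abs_zero] at hx
      linarith
    have h1 := mul_K2 hK x
    rw [TK.deriv_supp hK.supp x hx, neg_zero, zero_div] at h1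
    exact (mul_eq_zero.1 h1).resolve_left hx0

lemma ct_K2_deriv (hκ : 0 < κ) (hK : TK κ K) (y : ℝ) :
    HasDerivAt (ct (K2 K)) (-(y * ct K y)) y := by
  have hK2 := K2_TK hκ hK
  have hpi := Real.pi_pos
  have hd1 : Differentiable ℝ K := hK.smooth.differentiable (by simp)
  have hs1 := TK.deriv_smooth hK.smooth
  have hc1 : HasCompactSupport (deriv K) := hK.hcs.deriv
  have hk1 : Continuous (deriv K) := hs1.continuous
  have hder : HasDerivAt (ct (K2 K))
      (∫ α, K2 K α * (-Real.sin (2 * π * y * α) * (2 * π * α))) y := by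
    unfold ct
    refine (hasDerivAt_integral_of_dominated_loc_of_deriv_le (μ := volume)
      (F := fun y α => K2 K α * Real.cos (2 * π * y * α))
      (F' := fun y α => K2 K α * (-Real.sin (2 * π * y * α) * (2 * π * α)))
      (bound := fun α => |K2 K α| * (2 * π * |α|)) (Metric.ball_mem_nhds y one_pos)
      ?_ ?_ ?_ ?_ ?_ ?_).2
    · exact Eventually.of_forall fun x => (hK2.mul_int (by fun_prop)).aestronglyMeasurable
    · exact hK2.mul_int (by fun_prop)
    · exact (hK2.mul_int (by fun_prop)).aestronglyMeasurable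
    · refine Eventually.of_forall fun α x _ => ?_
      rw [Real.norm_eq_abs, abs_mul, abs_mul, abs_neg, abs_mul, abs_of_pos (by positivity :
        (0 : ℝ) < 2 * π)]
      refine mul_le_mul_of_nonneg_left ?_ (abs_nonneg _)
      exact mul_le_of_le_one_left (by positivity) (Real.abs_sin_le_one _)
    · have := (hK2.mul_int (f := fun α => 2 * π * |α|) (by fun_prop)).abs
      refine this.congr (Eventually.of_forall fun α => ?_)
      show |K2 K α * (2 * π * |α|)| = |K2 K α| * (2 * π * |α|)
      rw [abs_mul, abs_of_nonneg (by positivity : (0 : ℝ) ≤ 2 * π * |α|)]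
    · refine Eventually.of_forall fun α x _ => ?_
      have h1 : HasDerivAt (fun x : ℝ => 2 * π * x * α) (2 * π * α) x := by
        have := ((hasDerivAt_id x).const_mul (2 * π)).mul_const α
        simpa using this
      exact (h1.cos).const_mul _
  refine hder.congr_deriv ?_
  have e1 : ∫ α, K α * (2 * π * y * Real.cos (2 * π * y * α)) =
      -∫ α, deriv K α * Real.sin (2 * π * y * α) := by
    refine integral_mul_deriv_eq_deriv_mul_of_integrable (u := K)
      (v := fun α => Real.sin (2 * π * y * α)) (fun α _ => (hd1 α).hasDerivAt) (fun α _ => ?_)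
      (hK.mul_int (by fun_prop)) ?_ (hK.mul_int (by fun_prop))
    · have := ((hasDerivAt_id α).const_mul (2 * π * y)).sin
      simp only [id, mul_one] at this
      rw [mul_comm (2 * π * y)]
      exact this
    · exact (hk1.mul (by fun_prop)).integrable_of_hasCompactSupport hc1.mul_right
  have e2 : 2 * π * (y * ct K y) = ∫ α, K α * (2 * π * y * Real.cos (2 * π * y * α)) := by
    unfold ct
    rw [← mul_assoc, ← integral_const_mul]
    refine integral_congr_ae (Eventually.of_forall fun α => ?_)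
    show 2 * π * y * (K α * Real.cos (2 * π * y * α)) = _
    ring
  have e3 : ∫ α, K2 K α * (-Real.sin (2 * π * y * α) * (2 * π * α)) =
      (1 / (2 * π)) * ∫ α, deriv K α * Real.sin (2 * π * y * α) := by
    rw [← integral_const_mul]
    refine integral_congr_ae (Eventually.of_forall fun α => ?_)
    show K2 K α * (-Real.sin (2 * π * y * α) * (2 * π * α)) =
      1 / (2 * π) * (deriv K α * Real.sin (2 * π * y * α))
    have h1 := mul_K2 hK α
    have h2 : deriv K α = -(4 * π ^ 2) * (α * K2 K α) := by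
      rw [h1]
      field_simp
    rw [h2]
    field_simp
    ring
  rw [e3]
  have h3 : ∫ α, deriv K α * Real.sin (2 * π * y * α) = -(2 * π * (y * ct K y)) := by
    rw [e2, e1, neg_neg]
  rw [h3]
  field_simp

/-- the symmetric difference quotients are dominated -/
lemma quot_bound (hκ : 0 < κ) (hK : TK κ K) (n : ℕ) : ∃ D, 0 ≤ D ∧ ∀ y h : ℝ, 0 < h → h ≤ 1 →
    |(ct (K2 K) (y + h) - ct (K2 K) (y - h)) / (2 * h)| ≤ D / (1 + y ^ 2) ^ n := by
  obtain ⟨D, hD0, hD⟩ := hK.decay (n + 1)
  refine ⟨D * 4 ^ (n + 1), by positivity, fun y h hh0 hh1 => ?_⟩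
  have hmv : ∃ c ∈ Set.Ioo (y - h) (y + h), -(c * ct K c) =
      (ct (K2 K) (y + h) - ct (K2 K) (y - h)) / (y + h - (y - h)) :=
    exists_hasDerivAt_eq_slope (ct (K2 K)) (fun y => -(y * ct K y)) (by linarith)
      (K2_TK hκ hK).ct_cont.continuousOn (fun x _ => ct_K2_deriv hκ hK x)
  obtain ⟨c, hc, hc2⟩ := hmv
  have e : y + h - (y - h) = 2 * h := by ring
  rw [e] at hc2
  rw [← hc2, abs_neg, abs_mul]
  have h1 : |c| ≤ 1 + c ^ 2 := by
    rw [← sq_abs]
    nlinarith [sq_nonneg (|c| - 1), abs_nonneg c]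
  have h2 : 1 + y ^ 2 ≤ 4 * (1 + c ^ 2) := by
    have h3 : |y - c| ≤ 1 := by
      rw [abs_le]; constructor <;> linarith [hc.1, hc.2]
    have h4 : (y - c) ^ 2 ≤ 1 := by
      rw [← sq_abs]
      nlinarith [abs_nonneg (y - c)]
    nlinarith [sq_nonneg (y - 2 * c), sq_nonneg (y + c)]
  have h5 : 0 < 1 + c ^ 2 := by positivity
  calc |c| * |ct K c| ≤ (1 + c ^ 2) * (D / (1 + c ^ 2) ^ (n + 1)) :=
        mul_le_mul h1 (hD c) (abs_nonneg _) h5.le
    _ = D / (1 + c ^ 2) ^ n := by field_simp; ring
    _ ≤ D * 4 ^ (n + 1) / (1 + y ^ 2) ^ n := by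
        rw [div_le_div_iff₀ (by positivity) (by positivity), mul_assoc]
        refine mul_le_mul_of_nonneg_left ?_ hD0
        calc (1 + y ^ 2) ^ n ≤ (4 * (1 + c ^ 2)) ^ n := pow_le_pow_left₀ (by positivity) h2 n
          _ = 4 ^ n * (1 + c ^ 2) ^ n := mul_pow _ _ _
          _ ≤ 4 ^ (n + 1) * (1 + c ^ 2) ^ n := by
            refine mul_le_mul_of_nonneg_right ?_ (by positivity)
            exact pow_le_pow_right₀ (by norm_num) (by omega)

end Pool.Agent.Y744.ANC
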